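import Mathlib

/-!
# A lower bound for every spectral point at complements of Kneser graphs

Twelve pairwise disjoint boxes `S₁ × S₂ × S₃` with two-element sides fit in `[5]³`.  Hence every
spectral point has value at least `12 ^ (1/3) > 2.289` at the complement of the Petersen graph
`K_{5:2}`, which is more than `√5`, the Shannon capacity of the five-cycle.  By additivity every
spectral point is at least `m + 12 ^ (1/3)` at the complement of `K_{p:q}` whenever `p/q ≥ m + 5/2`.
-/

set_option autoImplicit false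

namespace Pool.Agent.Results.MP_0b002e_co.HalfIntegerBound

open Finset

/-- the vertices of the Kneser graph -/
abbrev KV (p q : ℕ) : Type := {s : Finset (Fin p) // s.card = q}

/-- the Kneser graph -/
def kneser (p q : ℕ) : SimpleGraph (KV p q) :=
  SimpleGraph.fromRel (fun s t : {s : Finset (Fin p) // s.card = q} => Disjoint s.1 t.1)

/-- A spectral point: a nonnegative real function on finite graphs, monotone under
cohomomorphism, additive under disjoint union, multiplicative under the strong product and equal to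
`1` at the one-vertex graph. -/
structure IsSpectralPoint (φ : (V : Type) → [Fintype V] → SimpleGraph V → ℝ) : Prop where
  nonneg : ∀ (V : Type) [Fintype V] (G : SimpleGraph V), 0 ≤ φ V G
  mono : ∀ (V W : Type) [Fintype V] [Fintype W] (G : SimpleGraph V) (H : SimpleGraph W),
    Nonempty (Gᶜ →g Hᶜ) → φ V G ≤ φ W H
  add : ∀ (V W : Type) [Fintype V] [Fintype W] (G : SimpleGraph V) (H : SimpleGraph W),
    φ (V ⊕ W) (SimpleGraph.fromRel (Sum.LiftRel G.Adj H.Adj)) = φ V G + φ W H
  mul : ∀ (V W : Type) [Fintype V] [Fintype W] (G : SimpleGraph V) (H : SimpleGraph W),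
    φ (V × W) (SimpleGraph.fromRel (fun x y : V × W =>
        (x.1 = y.1 ∨ G.Adj x.1 y.1) ∧ (x.2 = y.2 ∨ H.Adj x.2 y.2))) = φ V G * φ W H
  one : φ (Fin 1) (⊥ : SimpleGraph (Fin 1)) = 1

variable {φ : (V : Type) → [Fintype V] → SimpleGraph V → ℝ}

theorem le_bot (h : IsSpectralPoint φ) (n : ℕ) :
    (n : ℝ) ≤ φ (Fin n) (⊥ : SimpleGraph (Fin n)) := by
  induction n with
  | zero => simpa using h.nonneg (Fin 0) ⊥
  | succ n ih =>
    have h1 := h.add (Fin n) (Fin 1) ⊥ ⊥
    have h2 : φ (Fin n ⊕ Fin 1) (SimpleGraph.fromRel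
        (Sum.LiftRel (⊥ : SimpleGraph (Fin n)).Adj (⊥ : SimpleGraph (Fin 1)).Adj)) ≤
        φ (Fin (n + 1)) (⊥ : SimpleGraph (Fin (n + 1))) := by
      apply h.mono
      refine ⟨⟨fun x => finSumFinEquiv x, ?_⟩⟩
      intro a b hab
      rw [SimpleGraph.compl_adj] at hab ⊢
      exact ⟨fun he => hab.1 (finSumFinEquiv.injective he), by simp⟩
    rw [h1, h.one] at h2
    push_cast
    linarith

theorem le_of_hom (h : IsSpectralPoint φ) (n : ℕ) {V : Type} [Fintype V] (G : SimpleGraph V)
    (f : Fin n → V) (hf : ∀ i j, i ≠ j → f i ≠ f j ∧ ¬ G.Adj (f i) (f j)) :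
    (n : ℝ) ≤ φ V G := by
  refine (le_bot h n).trans (h.mono _ _ _ _ ⟨⟨f, ?_⟩⟩)
  intro a b hab
  rw [SimpleGraph.compl_adj] at hab ⊢
  exact hf a b hab.1

theorem disj {p q : ℕ} (hq : 1 ≤ q) {s t : KV p q} (hst : Disjoint s.1 t.1) :
    s ≠ t ∧ ¬ (kneser p q)ᶜ.Adj s t := by
  have hne : s ≠ t := by
    rintro rfl
    rw [disjoint_self] at hst
    have := s.2
    rw [hst] at this
    simp at this
    omega
  refine ⟨hne, ?_⟩
  rw [SimpleGraph.compl_adj]
  rintro ⟨_, h2⟩
  apply h2
  rw [kneser, SimpleGraph.fromRel_adj]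
  exact ⟨hne, Or.inl hst⟩

/-- the twelve boxes -/
def box : Fin 12 → Fin 3 → Finset (Fin 5) :=
  ![![{2, 4}, {0, 2}, {1, 3}], ![{1, 3}, {0, 3}, {1, 4}], ![{0, 1}, {2, 4}, {0, 1}],
    ![{1, 4}, {3, 4}, {2, 3}], ![{3, 4}, {2, 4}, {0, 4}], ![{1, 2}, {1, 2}, {2, 4}],
    ![{2, 3}, {1, 4}, {1, 3}], ![{0, 4}, {1, 3}, {1, 4}], ![{3, 4}, {0, 1}, {0, 2}],
    ![{0, 1}, {0, 1}, {0, 3}], ![{0, 3}, {2, 3}, {2, 3}], ![{0, 2}, {0, 4}, {2, 4}]]

set_option maxRecDepth 100000 in
theorem box_card : ∀ i k, (box i k).card = 2 := by decide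

set_option maxRecDepth 100000 in
theorem box_disj : ∀ i j, i ≠ j → ∃ k, Disjoint (box i k) (box j k) := by decide

/-- the sides of the boxes as vertices of `K_{5:2}` -/
def bx (i : Fin 12) (k : Fin 3) : KV 5 2 := ⟨box i k, box_card i k⟩

theorem cube (h : IsSpectralPoint φ) : (12 : ℝ) ≤ φ (KV 5 2) (kneser 5 2)ᶜ ^ 3 := by
  have h1 := h.mul (KV 5 2) (KV 5 2) (kneser 5 2)ᶜ (kneser 5 2)ᶜ
  have h2 := h.mul (KV 5 2 × KV 5 2) (KV 5 2) (SimpleGraph.fromRel (fun x y : KV 5 2 × KV 5 2 =>
    (x.1 = y.1 ∨ (kneser 5 2)ᶜ.Adj x.1 y.1) ∧ (x.2 = y.2 ∨ (kneser 5 2)ᶜ.Adj x.2 y.2)))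
    (kneser 5 2)ᶜ
  have h3 := le_of_hom h 12 (SimpleGraph.fromRel
    (fun x y : (KV 5 2 × KV 5 2) × KV 5 2 =>
      (x.1 = y.1 ∨ (SimpleGraph.fromRel (fun x y : KV 5 2 × KV 5 2 =>
        (x.1 = y.1 ∨ (kneser 5 2)ᶜ.Adj x.1 y.1) ∧
          (x.2 = y.2 ∨ (kneser 5 2)ᶜ.Adj x.2 y.2))).Adj x.1 y.1) ∧
      (x.2 = y.2 ∨ (kneser 5 2)ᶜ.Adj x.2 y.2))) (fun i => ((bx i 0, bx i 1), bx i 2)) ?_
  · rw [h2, h1] at h3
    calc (12 : ℝ) = ((12 : ℕ) : ℝ) := by norm_num
      _ ≤ _ := h3
      _ = _ := by ring
  · intro i j hij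
    obtain ⟨k, hk⟩ := box_disj i j hij
    have hA : bx i k ≠ bx j k ∧ ¬ (kneser 5 2)ᶜ.Adj (bx i k) (bx j k) :=
      disj (by norm_num) (s := bx i k) (t := bx j k) hk
    have hB : bx j k ≠ bx i k ∧ ¬ (kneser 5 2)ᶜ.Adj (bx j k) (bx i k) :=
      disj (by norm_num) (s := bx j k) (t := bx i k) hk.symm
    constructor
    · intro he
      apply hA.1
      simp only [Prod.mk.injEq] at he
      fin_cases k
      · exact he.1.1
      · exact he.1.2
      · exact he.2
    · intro hadj
      simp only [SimpleGraph.fromRel_adj] at hadj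
      fin_cases k
      · simp only [Fin.zero_eta, Fin.isValue] at hA hB
        have hp : ((bx i 0, bx i 1) : KV 5 2 × KV 5 2) ≠ (bx j 0, bx j 1) := by
          intro he; exact hA.1 (Prod.mk.inj he).1
        rcases hadj.2 with h4 | h4
        · rcases h4.1 with h5 | h5
          · exact hp h5
          · rcases h5.2 with h6 | h6
            · rcases h6.1 with h7 | h7
              · exact hA.1 h7
              · exact hA.2 h7
            · rcases h6.1 with h7 | h7
              · exact hB.1 h7
              · exact hB.2 h7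
        · rcases h4.1 with h5 | h5
          · exact hp h5.symm
          · rcases h5.2 with h6 | h6
            · rcases h6.1 with h7 | h7
              · exact hB.1 h7
              · exact hB.2 h7
            · rcases h6.1 with h7 | h7
              · exact hA.1 h7
              · exact hA.2 h7
      · simp only [Fin.mk_one, Fin.isValue] at hA hB
        have hp : ((bx i 0, bx i 1) : KV 5 2 × KV 5 2) ≠ (bx j 0, bx j 1) := by
          intro he; exact hA.1 (Prod.mk.inj he).2
        rcases hadj.2 with h4 | h4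
        · rcases h4.1 with h5 | h5
          · exact hp h5
          · rcases h5.2 with h6 | h6
            · rcases h6.2 with h7 | h7
              · exact hA.1 h7
              · exact hA.2 h7
            · rcases h6.2 with h7 | h7
              · exact hB.1 h7
              · exact hB.2 h7
        · rcases h4.1 with h5 | h5
          · exact hp h5.symm
          · rcases h5.2 with h6 | h6
            · rcases h6.2 with h7 | h7
              · exact hB.1 h7
              · exact hB.2 h7
            · rcases h6.2 with h7 | h7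
              · exact hA.1 h7
              · exact hA.2 h7
      · simp only [Fin.reduceFinMk, Fin.isValue] at hA hB
        rcases hadj.2 with h4 | h4
        · rcases h4.2 with h7 | h7
          · exact hA.1 h7
          · exact hA.2 h7
        · rcases h4.2 with h7 | h7
          · exact hB.1 h7
          · exact hB.2 h7

/-- a proper three-colouring of `K_{5:2}` -/
def col (S : Finset (Fin 5)) : ℕ := if 0 ∈ S then 0 else if 1 ∈ S then 1 else 2

theorem col_lt (S : Finset (Fin 5)) : col S < 3 := by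
  unfold col; split_ifs <;> norm_num

theorem col_ne : ∀ S T : Finset (Fin 5), S.card = 2 → T.card = 2 → Disjoint S T →
    col S ≠ col T := by
  intro S T hS hT hd he
  unfold col at he
  by_cases h0 : (0 : Fin 5) ∈ S
  · by_cases h0' : (0 : Fin 5) ∈ T
    · exact (Finset.disjoint_left.1 hd) h0 h0'
    · simp only [h0, h0', if_true, if_false] at he
      split_ifs at he
  · by_cases h0' : (0 : Fin 5) ∈ T
    · simp only [h0, h0', if_true, if_false] at he
      split_ifs at he
    · simp only [h0, h0', if_false] at he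
      by_cases h1 : (1 : Fin 5) ∈ S
      · by_cases h1' : (1 : Fin 5) ∈ T
        · exact (Finset.disjoint_left.1 hd) h1 h1'
        · simp only [h1, h1', if_true, if_false] at he
          omega
      · by_cases h1' : (1 : Fin 5) ∈ T
        · simp only [h1, h1', if_true, if_false] at he
          omega
        · have hU : S ∪ T ⊆ ({2, 3, 4} : Finset (Fin 5)) := by
            intro x hx
            rw [Finset.mem_union] at hx
            fin_cases x
            · rcases hx with hx | hx
              · exact absurd hx h0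
              · exact absurd hx h0'
            · rcases hx with hx | hx
              · exact absurd hx h1
              · exact absurd hx h1'
            · simp
            · simp
            · simp
          have h2 := Finset.card_le_card hU
          rw [Finset.card_union_of_disjoint hd, hS, hT] at h2
          have h3 : ({2, 3, 4} : Finset (Fin 5)).card = 3 := by decide
          omega

/-- a blow-up of `S` together with one point that records the colour of `S` when `q` is odd -/
def blow (q m : ℕ) (S : Finset (Fin 5)) : Finset ℕ :=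
  (S.biUnion fun a => Finset.Ico (m * q + a.1 * (q / 2)) (m * q + (a.1 + 1) * (q / 2))) ∪
    (if q % 2 = 1 then {m * q + 5 * (q / 2) + col S} else ∅)

theorem mem_blow {q m : ℕ} {S : Finset (Fin 5)} {x : ℕ} (hx : x ∈ blow q m S) :
    (∃ a ∈ S, m * q + a.1 * (q / 2) ≤ x ∧ x < m * q + (a.1 + 1) * (q / 2)) ∨
      (q % 2 = 1 ∧ x = m * q + 5 * (q / 2) + col S) := by
  rw [blow, Finset.mem_union] at hx
  rcases hx with hx | hx
  · left
    rw [Finset.mem_biUnion] at hx
    obtain ⟨a, ha, h1⟩ := hx
    exact ⟨a, ha, Finset.mem_Ico.1 h1⟩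
  · right
    split_ifs at hx with h
    · exact ⟨h, Finset.mem_singleton.1 hx⟩
    · simp at hx

theorem mul_bd {a b h : ℕ} (hab : a < b) : (a + 1) * h ≤ b * h := Nat.mul_le_mul_right h hab

theorem blow_lt {q m : ℕ} {S : Finset (Fin 5)} {x : ℕ} (hx : x ∈ blow q m S) :
    m * q ≤ x ∧ x < m * q + 5 * (q / 2) + 3 * (q % 2) := by
  rcases mem_blow hx with ⟨a, _, h1, h2⟩ | ⟨h1, h2⟩
  · have := mul_bd (h := q / 2) a.2
    constructor
    · exact le_trans (Nat.le_add_right _ _) h1
    · omega
  · have := col_lt S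
    constructor <;> omega

theorem blow_card {q m : ℕ} {S : Finset (Fin 5)} (hS : S.card = 2) :
    (blow q m S).card = q := by
  rw [blow, Finset.card_union_of_disjoint, Finset.card_biUnion]
  · simp only [Nat.card_Ico]
    have : ∀ a ∈ S, m * q + ((a : Fin 5).1 + 1) * (q / 2) - (m * q + a.1 * (q / 2)) = q / 2 := by
      intro a _
      have : (a.1 + 1) * (q / 2) = a.1 * (q / 2) + q / 2 := by ring
      omega
    rw [Finset.sum_congr rfl this, Finset.sum_const, hS]
    split_ifs with h
    · simp; omega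
    · simp; omega
  · intro a _ b _ hab
    rw [Function.onFun, Finset.disjoint_left]
    intro x hx hx'
    rw [Finset.mem_Ico] at hx hx'
    rcases lt_or_gt_of_ne (fun h => hab (Fin.ext h) : a.1 ≠ b.1) with h | h
    · have := mul_bd (h := q / 2) h; omega
    · have := mul_bd (h := q / 2) h; omega
  · rw [Finset.disjoint_left]
    intro x hx hx'
    rw [Finset.mem_biUnion] at hx
    obtain ⟨a, _, h1⟩ := hx
    rw [Finset.mem_Ico] at h1
    have h2 := mul_bd (h := q / 2) a.2
    split_ifs at hx' with h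
    · rw [Finset.mem_singleton] at hx'
      omega
    · simp at hx'

theorem blow_disj {q m : ℕ} {S T : Finset (Fin 5)} (hS : S.card = 2) (hT : T.card = 2)
    (hd : Disjoint S T) : Disjoint (blow q m S) (blow q m T) := by
  rw [Finset.disjoint_left]
  intro x hx hx'
  rcases mem_blow hx with ⟨a, ha, h1, h2⟩ | ⟨h1, h2⟩
  · rcases mem_blow hx' with ⟨b, hb, h3, h4⟩ | ⟨h3, h4⟩
    · have hab : a ≠ b := fun h => (Finset.disjoint_left.1 hd) ha (h ▸ hb)
      rcases lt_or_gt_of_ne (fun h => hab (Fin.ext h) : a.1 ≠ b.1) with h | h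
      · have := mul_bd (h := q / 2) h; omega
      · have := mul_bd (h := q / 2) h; omega
    · have := mul_bd (h := q / 2) a.2; omega
  · rcases mem_blow hx' with ⟨b, hb, h3, h4⟩ | ⟨h3, h4⟩
    · have := mul_bd (h := q / 2) b.2; omega
    · have := col_ne S T hS hT hd; omega

/-- the subset of `ℕ` attached to a vertex of the join -/
def nset (q m : ℕ) : Fin m ⊕ KV 5 2 → Finset ℕ
  | Sum.inl i => Finset.Ico (i.1 * q) ((i.1 + 1) * q)
  | Sum.inr S => blow q m S.1

theorem nset_card (q m : ℕ) (v : Fin m ⊕ KV 5 2) : (nset q m v).card = q := by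
  rcases v with i | S
  · simp only [nset, Nat.card_Ico]
    have : (i.1 + 1) * q = i.1 * q + q := by ring
    omega
  · exact blow_card S.2

theorem nset_lt {p q m : ℕ} (h : (5 + 2 * m) * q ≤ 2 * p) (v : Fin m ⊕ KV 5 2) :
    ∀ x ∈ nset q m v, x < p := by
  have h' : 5 * q + 2 * (m * q) ≤ 2 * p := by
    calc 5 * q + 2 * (m * q) = (5 + 2 * m) * q := by ring
      _ ≤ 2 * p := h
  rcases v with i | S
  · intro x hx
    simp only [nset, Finset.mem_Ico] at hx
    have := mul_bd (h := q) i.2
    omega
  · intro x hx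
    have := (blow_lt hx).2
    omega

/-- the homomorphism to the Kneser graph -/
def toK {p q m : ℕ} (h : (5 + 2 * m) * q ≤ 2 * p) (v : Fin m ⊕ KV 5 2) : KV p q :=
  ⟨Finset.attachFin (nset q m v) (nset_lt h v), by rw [Finset.card_attachFin, nset_card]⟩

theorem toK_disj {p q m : ℕ} (h : (5 + 2 * m) * q ≤ 2 * p) {v w : Fin m ⊕ KV 5 2}
    (hd : Disjoint (nset q m v) (nset q m w)) : Disjoint (toK h v).1 (toK h w).1 := by
  rw [Finset.disjoint_left]
  intro x hx hx'
  simp only [toK, Finset.mem_attachFin] at hx hx'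
  exact (Finset.disjoint_left.1 hd) hx hx'

theorem nset_disj {q m : ℕ} {v w : Fin m ⊕ KV 5 2}
    (hvw : (SimpleGraph.fromRel (Sum.LiftRel (⊥ : SimpleGraph (Fin m)).Adj
      (kneser 5 2)ᶜ.Adj))ᶜ.Adj v w) : Disjoint (nset q m v) (nset q m w) := by
  rw [SimpleGraph.compl_adj, SimpleGraph.fromRel_adj] at hvw
  obtain ⟨hne, hvw⟩ := hvw
  rcases v with i | S
  · rcases w with j | T
    · have hij : i.1 ≠ j.1 := fun h => hne (by rw [Fin.ext h])
      rw [Finset.disjoint_left]
      intro x hx hx'
      simp only [nset, Finset.mem_Ico] at hx hx'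
      rcases lt_or_gt_of_ne hij with h | h
      · have := mul_bd (h := q) h; omega
      · have := mul_bd (h := q) h; omega
    · rw [Finset.disjoint_left]
      intro x hx hx'
      simp only [nset, Finset.mem_Ico] at hx
      have := (blow_lt hx').1
      have := mul_bd (h := q) i.2
      omega
  · rcases w with j | T
    · rw [Finset.disjoint_left]
      intro x hx hx'
      simp only [nset, Finset.mem_Ico] at hx'
      have := (blow_lt hx).1
      have := mul_bd (h := q) j.2
      omega
    · have hST : Disjoint S.1 T.1 := by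
        by_contra hcon
        apply hvw
        refine ⟨hne, Or.inl (Sum.LiftRel.inr ?_)⟩
        rw [SimpleGraph.compl_adj]
        refine ⟨fun he => hne (by rw [he]), ?_⟩
        rw [kneser, SimpleGraph.fromRel_adj]
        rintro ⟨_, h1 | h1⟩
        · exact hcon h1
        · exact hcon h1.symm
      exact blow_disj S.2 T.2 hST

/-- Every spectral point has value at least `m + 12 ^ (1/3)` at the complement of the Kneser graph
`K_{p:q}` whenever `p / q ≥ m + 5 / 2`. -/
theorem result :
    ∀ φ : (V : Type) → [Fintype V] → SimpleGraph V → ℝ, IsSpectralPoint φ →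
      ∀ p q m : ℕ, 1 ≤ q → (5 + 2 * m) * q ≤ 2 * p →
        (m : ℝ) + (12 : ℝ) ^ ((1 : ℝ) / 3) ≤
          φ {s : Finset (Fin p) // s.card = q}
            (SimpleGraph.fromRel (fun s t : {s : Finset (Fin p) // s.card = q} =>
              Disjoint s.1 t.1))ᶜ := by
  intro φ h p q m hq hpq
  have h0 : 0 ≤ φ (KV 5 2) (kneser 5 2)ᶜ := h.nonneg _ _
  have h1 : (12 : ℝ) ^ ((1 : ℝ) / 3) ≤ φ (KV 5 2) (kneser 5 2)ᶜ := by
    have h2 := Real.rpow_le_rpow (by norm_num) (cube h) (by norm_num : (0 : ℝ) ≤ 1 / 3)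
    have h3 : (φ (KV 5 2) (kneser 5 2)ᶜ ^ 3) ^ ((1 : ℝ) / 3) = φ (KV 5 2) (kneser 5 2)ᶜ := by
      rw [← Real.rpow_natCast, ← Real.rpow_mul h0]
      norm_num
    rw [h3] at h2
    exact h2
  have h4 := h.add (Fin m) (KV 5 2) ⊥ (kneser 5 2)ᶜ
  have h5 : φ (Fin m ⊕ KV 5 2) (SimpleGraph.fromRel
      (Sum.LiftRel (⊥ : SimpleGraph (Fin m)).Adj (kneser 5 2)ᶜ.Adj)) ≤
      φ (KV p q) (kneser p q)ᶜ := by
    apply h.mono
    refine ⟨⟨toK hpq, ?_⟩⟩
    intro a b hab
    rw [compl_compl]
    have hd := toK_disj hpq (nset_disj (q := q) hab)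
    have h6 := disj hq hd
    rw [SimpleGraph.compl_adj] at h6
    by_contra hcon
    exact h6.2 ⟨h6.1, hcon⟩
  have h7 := le_bot h m
  have h8 : φ (KV p q) (kneser p q)ᶜ = φ {s : Finset (Fin p) // s.card = q}
            (SimpleGraph.fromRel (fun s t : {s : Finset (Fin p) // s.card = q} =>
              Disjoint s.1 t.1))ᶜ := rfl
  rw [← h8]
  linarith

end Pool.Agent.Results.MP_0b002e_co.HalfIntegerBound
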