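import Pool.Agent.H28.KN.C
import Pool.Agent.H28.KN.D

/-!
# Every spectral point is Kneser-normalised in the limit of large ratios

For every spectral point `φ` and all `p`, `q`, `k ≥ 1` with `p / q ≥ k ^ (2 k)` the value of `φ` at
the complement of the Kneser graph `K_{p:q}` is between `p / q - 4 / k` and `p / q`.

Lower bound: let `P = κ Q ^ a + 1`. The words `x` in `(ℤ / P) ^ a` with
`∑ Q ^ i x_i ∈ {0, Q ^ a, …, (κ - 1) Q ^ a}` form a code of `κ P ^ (a - 1)` words any two of which
have circular distance at least `Q` in some coordinate. If `p / q ≥ P / Q` then the coordinates can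
be replaced by arcs of length `q` in `ℤ / p`, and one gets as many disjoint boxes with sides of
`q` points in `[p] ^ a`. So `φ ^ a ≥ κ P ^ (a - 1)`, that is `φ ≥ κ Q ^ (a - 1) + (1 - 2 / a) / Q`,
and `φ` is superadditive in `p`.

Upper bound: a greedy choice of points hits all boxes.
-/

set_option autoImplicit false

namespace Pool.Agent.Results.MP_0b002e_co.LargeRatios

open Pool.Agent.H28.KN

/-- **Result.** For every spectral point `φ` and all `k, q ≥ 1` and `p ≥ k ^ (2 k) q` the value of
`φ` at the complement of the Kneser graph `K_{p:q}` is between `p / q - 4 / k` and `p / q`. -/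
theorem result :
    ∀ φ : (V : Type) → [Fintype V] → SimpleGraph V → ℝ, IsSpectralPoint φ →
      ∀ k p q : ℕ, 1 ≤ k → 1 ≤ q → k ^ (2 * k) * q ≤ p →
        (p : ℝ) / q - 4 / k ≤
          φ {s : Finset (Fin p) // s.card = q}
            (SimpleGraph.fromRel (fun s t : {s : Finset (Fin p) // s.card = q} =>
              Disjoint s.1 t.1))ᶜ ∧
        φ {s : Finset (Fin p) // s.card = q}
            (SimpleGraph.fromRel (fun s t : {s : Finset (Fin p) // s.card = q} =>
              Disjoint s.1 t.1))ᶜ ≤ (p : ℝ) / q := by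
  intro φ h k p q hk hq hp
  refine ⟨lower h hk hq hp, upper h hq ?_⟩
  have h1 : 1 ≤ k ^ (2 * k) := Nat.one_le_pow _ _ hk
  calc q = 1 * q := (one_mul q).symm
    _ ≤ k ^ (2 * k) * q := Nat.mul_le_mul_right _ h1
    _ ≤ p := hp

end Pool.Agent.Results.MP_0b002e_co.LargeRatios
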